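import Pool.Agent.Helper94.GA.Goals

namespace Pool.Agent.Helper75.GA

open Finset
open Pool.Agent.Helper94.GA

universe u v w

theorem mult_pos {Ω : Type u} {X : Type v} [Fintype Ω] (g : Ω → X) (ω : Ω) :
    0 < Nat.card {ω' // g ω' = g ω} := by
  have : Nonempty {ω' // g ω' = g ω} := ⟨⟨ω, rfl⟩⟩
  exact Nat.card_pos

theorem mult_le {Ω : Type u} {X : Type v} [Fintype Ω] (g : Ω → X) (ω : Ω) :
    Nat.card {ω' // g ω' = g ω} ≤ Fintype.card Ω := by
  classical
  rw [← Nat.card_eq_fintype_card]
  exact Nat.card_le_card_of_injective (fun x : {ω' // g ω' = g ω} => x.1) Subtype.val_injective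

theorem ent_nonneg {Ω : Type u} {X : Type v} [Fintype Ω] [Nonempty Ω] (g : Ω → X) :
    0 ≤ ent g := by
  unfold ent
  have hc : (0 : ℝ) < Fintype.card Ω := by exact_mod_cast Fintype.card_pos
  rw [sub_nonneg, div_le_iff₀ hc]
  calc ∑ ω, Real.log (Nat.card {ω' // g ω' = g ω})
      ≤ ∑ _ω : Ω, Real.log (Fintype.card Ω) := by
        refine Finset.sum_le_sum fun ω _ => ?_
        apply Real.log_le_log
        · exact_mod_cast mult_pos g ω
        · exact_mod_cast mult_le g ω
    _ = Real.log (Fintype.card Ω) * Fintype.card Ω := by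
        rw [Finset.sum_const, Finset.card_univ, nsmul_eq_mul, mul_comm]

theorem sum_inv {Ω : Type u} {X : Type v} [Fintype Ω] [DecidableEq X] (g : Ω → X) :
    ∑ ω, (1 : ℝ) / (Nat.card {ω' // g ω' = g ω} : ℝ) = ((univ.image g).card : ℝ) := by
  classical
  rw [← Finset.sum_fiberwise_of_maps_to (s := univ) (t := univ.image g) (g := g)
    (fun ω _ => Finset.mem_image_of_mem g (Finset.mem_univ ω))]
  have : ∀ y ∈ univ.image g, ∑ ω ∈ univ.filter (fun ω => g ω = y),
      (1 : ℝ) / (Nat.card {ω' // g ω' = g ω} : ℝ) = 1 := by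
    intro y hy
    obtain ⟨ω₀, _, h0⟩ := Finset.mem_image.mp hy
    have hcard : Nat.card {ω' // g ω' = y} = (univ.filter (fun ω => g ω = y)).card := by
      rw [Nat.card_eq_fintype_card, Fintype.card_subtype]
    have hpos : 0 < (univ.filter (fun ω => g ω = y)).card := by
      apply Finset.card_pos.mpr
      exact ⟨ω₀, by simp [h0]⟩
    calc ∑ ω ∈ univ.filter (fun ω => g ω = y), (1 : ℝ) / (Nat.card {ω' // g ω' = g ω} : ℝ)
        = ∑ ω ∈ univ.filter (fun ω => g ω = y),
            (1 : ℝ) / ((univ.filter (fun ω => g ω = y)).card : ℝ) := by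
          refine Finset.sum_congr rfl fun ω hω => ?_
          have hω' : g ω = y := (Finset.mem_filter.mp hω).2
          rw [hω', hcard]
      _ = 1 := by
          rw [Finset.sum_const, nsmul_eq_mul]
          have : ((univ.filter (fun ω => g ω = y)).card : ℝ) ≠ 0 := by
            exact_mod_cast hpos.ne'
          field_simp
  rw [Finset.sum_congr rfl this]
  simp

theorem ent_le_image {Ω : Type u} {X : Type v} [Fintype Ω] [Nonempty Ω] [DecidableEq X]
    (g : Ω → X) : ent g ≤ Real.log ((univ.image g).card : ℝ) := by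
  have hc : (0 : ℝ) < Fintype.card Ω := by exact_mod_cast Fintype.card_pos
  have hI : (0 : ℝ) < (univ.image g).card := by
    have : (univ.image g).Nonempty := Finset.univ_nonempty.image g
    exact_mod_cast Finset.card_pos.mpr this
  have key : ∑ ω, (Real.log (Fintype.card Ω) - Real.log (Nat.card {ω' // g ω' = g ω}) -
      Real.log ((univ.image g).card : ℝ)) ≤ 0 := by
    calc ∑ ω, (Real.log (Fintype.card Ω) - Real.log (Nat.card {ω' // g ω' = g ω}) -
        Real.log ((univ.image g).card : ℝ))
        ≤ ∑ ω, ((Fintype.card Ω : ℝ) / (univ.image g).card *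
            (1 / (Nat.card {ω' // g ω' = g ω} : ℝ)) - 1) := by
          refine Finset.sum_le_sum fun ω _ => ?_
          have hm : (0 : ℝ) < Nat.card {ω' // g ω' = g ω} := by exact_mod_cast mult_pos g ω
          have hx : 0 < (Fintype.card Ω : ℝ) / (univ.image g).card *
            (1 / (Nat.card {ω' // g ω' = g ω} : ℝ)) := by positivity
          have := Real.log_le_sub_one_of_pos hx
          rw [Real.log_mul (by positivity) (by positivity), Real.log_div hc.ne' hI.ne',
            Real.log_div one_ne_zero hm.ne', Real.log_one] at this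
          linarith
      _ = 0 := by
          rw [Finset.sum_sub_distrib, ← Finset.mul_sum, sum_inv g]
          simp only [Finset.sum_const, Finset.card_univ, nsmul_eq_mul, mul_one]
          field_simp
          ring
  unfold ent
  have h2 : (∑ ω, Real.log (Nat.card {ω' // g ω' = g ω})) ≥
      (Real.log (Fintype.card Ω) - Real.log ((univ.image g).card : ℝ)) * Fintype.card Ω := by
    rw [Finset.sum_sub_distrib, Finset.sum_sub_distrib] at key
    simp only [Finset.sum_const, Finset.card_univ, nsmul_eq_mul] at key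
    nlinarith [key]
  have h3 := (le_div_iff₀ hc).mpr h2
  linarith

theorem ent_mono {Ω : Type u} {X : Type v} {Y : Type w} [Fintype Ω] [Nonempty Ω]
    (f : Ω → X) (g : Ω → Y) (h : ∀ ω ω', f ω = f ω' → g ω = g ω') : ent g ≤ ent f := by
  have hc : (0 : ℝ) < Fintype.card Ω := by exact_mod_cast Fintype.card_pos
  unfold ent
  have : (∑ ω, Real.log (Nat.card {ω' // f ω' = f ω})) / (Fintype.card Ω : ℝ) ≤
      (∑ ω, Real.log (Nat.card {ω' // g ω' = g ω})) / (Fintype.card Ω : ℝ) := by
    apply div_le_div_of_nonneg_right _ hc.le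
    refine Finset.sum_le_sum fun ω _ => ?_
    apply Real.log_le_log
    · exact_mod_cast mult_pos f ω
    · have : Nat.card {ω' // f ω' = f ω} ≤ Nat.card {ω' // g ω' = g ω} :=
        Nat.card_le_card_of_injective
          (fun x : {ω' // f ω' = f ω} => (⟨x.1, h _ _ x.2⟩ : {ω' // g ω' = g ω}))
          (fun a b hab => by
            apply Subtype.ext
            exact congrArg (fun z : {ω' // g ω' = g ω} => z.1) hab)
      exact_mod_cast this
  linarith

/-- Packet ENT. -/
theorem ENT : ENT_stmt.{u, v, w} :=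
  ⟨fun _ _ _ _ g => ent_nonneg g, fun _ _ _ _ _ g => ent_le_image g,
    fun _ _ _ _ _ f g h => ent_mono f g h⟩

end Pool.Agent.Helper75.GA
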